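import Pool.Agent.H92.Lens.Main

/-!
The Schwarz genus of the circle bundle over the lens space `L^m(p^(k+1))` is at least `min m (k + 1)`
and at most `m`. So for `m = p * N + 2` with `N ≥ 1` it exceeds `N + 2` as soon as `k ≥ N + 2`, for
every prime `p`.

If `n < m` open sets with sections cover the base, then the pull-back of the generator of the second
integral cohomology group, which is `p` times a generator `x` of `H²(L^m(p^(k+1))) = ℤ/p^(k+1)`, has
vanishing `n`-th power, so that `p ^ n • x ^ n = 0` in `ℤ/p^(k+1)`. Below this is proved by hand with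
ordered simplices of small diameter on the sphere.
-/

set_option autoImplicit false

namespace Pool.Agent.Results.MP_fba7f7_gt.LargeGenus

open Pool.Agent.H92.Lens

theorem result :
    (∀ p m k : ℕ, p.Prime → 1 ≤ m → 1 ≤ k →
      ((min m (k + 1) : ℕ) : ℕ∞) ≤ schwarzGenus (proj m p k) ∧
        schwarzGenus (proj m p k) ≤ (m : ℕ∞)) ∧
    (∀ p N k : ℕ, p.Prime → 1 ≤ N → N + 2 ≤ k →
      ((N + 2 : ℕ) : ℕ∞) < schwarzGenus (proj (p * N + 2) p k)) := by
  refine ⟨fun p m k hp hm hk => ⟨le_genus hp.two_le, genus_le hp.pos hm⟩, ?_⟩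
  intro p N k hp hN hk
  refine lt_of_lt_of_le ?_ (le_genus (m := p * N + 2) (k := k) hp.two_le)
  have h1 : 2 * N ≤ p * N := Nat.mul_le_mul_right N hp.two_le
  have h2 : N + 2 < min (p * N + 2) (k + 1) := lt_min (by omega) (by omega)
  exact_mod_cast h2

end Pool.Agent.Results.MP_fba7f7_gt.LargeGenus
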